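import Pool.Agent.R186.KRK.WinCheck

/-!
# MP_b88367_co, Q1: White can force checkmate within 39 moves on the quarter-infinite board
-/

namespace Pool.Agent.Results.MP_b88367_co.ForcedMate

open Pool.Agent.R186.KRK

theorem result : WinsIn ⊤ ⊤ 39 start :=
  winsIn_mono le_top le_top 39 start (onBoard_9_11.2 (by decide)) win_9_11

end Pool.Agent.Results.MP_b88367_co.ForcedMate
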