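import Pool.Agent.R186.KRK.WinCheck
import Pool.Agent.R186.KRK.SafeCheck
import Pool.Agent.R186.KRK.StripCheck

/-!
# MP_b88367_co, Q2: the boards with north and east exits on which White wins

From White king a1, White rook b2, Black king c3 with White to move, White can force checkmate on
the board with `m` files and `n` ranks if and only if the board contains the board with 9 files and
11 ranks or the board with 11 files and 9 ranks.
-/

namespace Pool.Agent.Results.MP_b88367_co.SmallestBoards

open Pool.Agent.R186.KRK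

theorem trp_start : trp start = start := rfl

theorem result (m n : ℕ) (hm : 3 ≤ m) (hn : 3 ≤ n) :
    (∃ k, WinsIn m n k start) ↔ (9 ≤ m ∧ 11 ≤ n) ∨ (11 ≤ m ∧ 9 ≤ n) := by
  have hst : OnBoard m n start.bk := by
    refine ⟨by decide, ?_, by decide, ?_⟩
    · show ((3 : ℕ) : ℕ∞) ≤ m
      exact_mod_cast hm
    · show ((3 : ℕ) : ℕ∞) ≤ n
      exact_mod_cast hn
  constructor
  · rintro ⟨k, hk⟩
    by_contra hcon
    rw [not_or, not_and_or, not_and_or] at hcon
    obtain ⟨h1, h2⟩ := hcon
    have hcases : m ≤ 8 ∨ n ≤ 8 ∨ (m ≤ 10 ∧ n ≤ 10) := by omega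
    rcases hcases with h | h | ⟨h, h'⟩
    · refine no_win_8 k (winsIn_mono ?_ le_top k start hst hk)
      exact_mod_cast h
    · have hk' := winsIn_tr k start hk
      rw [trp_start] at hk'
      refine no_win_8 k (winsIn_mono ?_ le_top k start (onBoard_tr hst) hk')
      exact_mod_cast h
    · refine no_win_10_10 k (winsIn_mono ?_ ?_ k start hst hk)
      · exact_mod_cast h
      · exact_mod_cast h'
  · rintro (⟨h1, h2⟩ | ⟨h1, h2⟩)
    · refine ⟨39, winsIn_mono ?_ ?_ 39 start ?_ win_9_11⟩
      · exact_mod_cast h1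
      · exact_mod_cast h2
      · exact onBoard_9_11.2 (by decide)
    · refine ⟨39, winsIn_mono ?_ ?_ 39 start ?_ (winsIn_tr 39 start win_9_11)⟩
      · exact_mod_cast h1
      · exact_mod_cast h2
      · exact onBoard_tr (onBoard_9_11.2 (by decide))

end Pool.Agent.Results.MP_b88367_co.SmallestBoards
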